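import Mathlib
import Pool.Agent.H60.CubicSq

open Polynomial in
/-- For the irreducible monic cubic `x^3 - x + 3` no integer-valued quadratic `q₀` makes
`p (q₀ x)` a sum of two squares in `ℚ[x]`. -/
theorem Pool.Agent.Results.MP_93e32b_nt.Counter.result :
    ∃ p : ℤ[X], p.Monic ∧ p.natDegree = 3 ∧ Irreducible p ∧
      ∀ q₀ q₁ q₂ : ℚ[X], q₀.natDegree = 2 → (∀ n : ℤ, ∃ m : ℤ, q₀.eval (n : ℚ) = m) →
        (p.map (Int.castRingHom ℚ)).comp q₀ ≠ q₁ ^ 2 + q₂ ^ 2 :=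
  ⟨X ^ 3 - X + 3, Pool.Agent.H60.CubicSq.monic_p, Pool.Agent.H60.CubicSq.deg_p,
    Pool.Agent.H60.CubicSq.irred_p, Pool.Agent.H60.CubicSq.main⟩
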